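import Pool.Agent.Q113.MS.Stm

/-!
# Project MS (helper113): jobs SPL, DC, PDW (by helper96)
-/

set_option autoImplicit false

namespace Pool.Agent.Q96.MS

open Finset
open Pool.Agent.Q113.MS

theorem t_SPL : S_SPL := by
  intro α _ V k x a hk ha
  obtain ⟨m, rfl⟩ : ∃ m, k = m + 1 := ⟨k - 1, by omega⟩
  have haW : a ∉ V.erase a := notMem_erase a V
  have hV : insert a (V.erase a) = V := insert_erase ha
  unfold NN
  conv_lhs => rw [← hV, powersetCard_succ_insert haW, filter_union]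
  have hdisj : Disjoint (((V.erase a).powersetCard (m + 1)).filter (fun S => 0 ≤ ∑ i ∈ S, x i))
      (((powersetCard m (V.erase a)).image (insert a)).filter (fun S => 0 ≤ ∑ i ∈ S, x i)) := by
    rw [disjoint_left]
    intro S h1 h2
    obtain ⟨h3, -⟩ := mem_filter.1 h1
    obtain ⟨h4, -⟩ := mem_filter.1 h2
    obtain ⟨B, -, rfl⟩ := mem_image.1 h4
    exact haW ((mem_powersetCard.1 h3).1 (mem_insert_self a B))
  rw [card_union_of_disjoint hdisj, add_comm]
  congr 1
  rw [filter_image, card_image_of_injOn]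
  · rw [Nat.add_sub_cancel]
    congr 1
    apply filter_congr
    intro B hB
    have haB : a ∉ B := fun h => haW ((mem_powersetCard.1 hB).1 h)
    rw [sum_insert haB]
    constructor <;> intro h <;> linarith
  · intro B hB B' hB' h
    rw [mem_coe, mem_filter] at hB hB'
    have haB : a ∉ B := fun h => haW ((mem_powersetCard.1 hB.1).1 h)
    have haB' : a ∉ B' := fun h => haW ((mem_powersetCard.1 hB'.1).1 h)
    have h' : insert a B = insert a B' := h
    rw [← erase_insert haB, ← erase_insert haB', h']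

/-- the `k`-subsets disjoint from a set -/
theorem pc_sdiff {α : Type} [DecidableEq α] (W B : Finset α) (k : ℕ) :
    (W \ B).powersetCard k = (W.powersetCard k).filter (fun A => Disjoint A B) := by
  ext A
  rw [mem_powersetCard, mem_filter, mem_powersetCard, subset_sdiff]
  tauto

theorem t_DC : S_DC := by
  intro α _ W k y M L κ δ τ hk hkW hκ hδ0 hδ1 hL hB hA hT hfin
  set C : ℝ := ((W.card - k).choose (k - 1) : ℝ) with hC
  have hC0 : 0 < C := by
    rw [hC]
    exact_mod_cast Nat.choose_pos (by omega)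
  set 𝓑 := (W.powersetCard (k - 1)).filter (fun B => ∑ i ∈ B, y i < -M) with h𝓑
  set 𝓐 := (W.powersetCard k).filter (fun A => 0 ≤ ∑ i ∈ A, y i) with h𝓐
  set 𝓛 := (W.powersetCard k).filter (fun A => L < ∑ i ∈ A, y i) with h𝓛
  have hNN : (NN W k y : ℝ) = 𝓐.card := rfl
  -- count by `B`
  have h1 : ∑ B ∈ 𝓑, κ * C ≤ ∑ B ∈ 𝓑, ((𝓐.filter (fun A => Disjoint A B)).card : ℝ) := by
    apply sum_le_sum
    intro B hB'
    obtain ⟨hB1, hB2⟩ := mem_filter.1 hB'
    refine (hB B hB1 hB2).trans (le_of_eq ?_)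
    unfold NN
    rw [pc_sdiff, filter_filter, h𝓐, filter_filter]
    congr 2
    apply filter_congr
    intro A _
    tauto
  -- count by `A`
  have h2 : ∑ B ∈ 𝓑, ((𝓐.filter (fun A => Disjoint A B)).card : ℝ) =
      ∑ A ∈ 𝓐, ((𝓑.filter (fun B => Disjoint A B)).card : ℝ) := by
    have : ∑ B ∈ 𝓑, (𝓐.filter (fun A => Disjoint A B)).card =
        ∑ A ∈ 𝓐, (𝓑.filter (fun B => Disjoint A B)).card := by
      simp only [card_filter]
      exact sum_comm
    exact_mod_cast this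
  have hcnt : ∀ A ∈ 𝓐, ((𝓑.filter (fun B => Disjoint A B)).card : ℝ) =
      ((((W \ A).powersetCard (k - 1)).filter (fun B => ∑ i ∈ B, y i < -M)).card : ℝ) := by
    intro A _
    rw [pc_sdiff, h𝓑, filter_filter, filter_filter]
    congr 2
    apply filter_congr
    intro B _
    rw [disjoint_comm]
    tauto
  have h𝓛𝓐 : 𝓛 = 𝓐.filter (fun A => L < ∑ i ∈ A, y i) := by
    rw [h𝓛, h𝓐, filter_filter]
    apply filter_congr
    intro A _
    constructor
    · intro h
      exact ⟨by linarith, h⟩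
    · exact fun h => h.2
  have h3 : ∑ A ∈ 𝓐, ((𝓑.filter (fun B => Disjoint A B)).card : ℝ) ≤
      ∑ A ∈ 𝓐, (δ * C + if L < ∑ i ∈ A, y i then (1 - δ) * C else 0) := by
    apply sum_le_sum
    intro A hA'
    rw [hcnt A hA']
    obtain ⟨hA1, hA2⟩ := mem_filter.1 hA'
    by_cases h : L < ∑ i ∈ A, y i
    · rw [if_pos h]
      have hcard : ((((W \ A).powersetCard (k - 1)).filter (fun B => ∑ i ∈ B, y i < -M)).card : ℝ) ≤ C := by
        have h5 : (((W \ A).powersetCard (k - 1)).filter (fun B => ∑ i ∈ B, y i < -M)).card ≤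
            (W.card - k).choose (k - 1) := by
          refine (card_filter_le _ _).trans ?_
          rw [card_powersetCard, card_sdiff_of_subset (mem_powersetCard.1 hA1).1, (mem_powersetCard.1 hA1).2]
        rw [hC]
        exact_mod_cast h5
      linarith
    · rw [if_neg h, add_zero]
      exact hA A hA1 hA2 (not_lt.1 h)
  rw [sum_add_distrib, sum_const, nsmul_eq_mul, ← sum_filter, ← h𝓛𝓐, sum_const, nsmul_eq_mul, ← hNN] at h3
  rw [sum_const, nsmul_eq_mul] at h1
  have h4 : (𝓛.card : ℝ) * ((1 - δ) * C) ≤ (τ * (NN W k y : ℝ)) * ((1 - δ) * C) :=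
    mul_le_mul_of_nonneg_right hT (mul_nonneg (by linarith) hC0.le)
  have h5 : (δ + (1 - δ) * τ) * ((NN W k y : ℝ) * C) ≤ κ * ((NN W k y : ℝ) * C) :=
    mul_le_mul_of_nonneg_right hfin (by positivity)
  have h6 : (𝓑.card : ℝ) * (κ * C) ≤ (NN W k y : ℝ) * (κ * C) := by
    calc (𝓑.card : ℝ) * (κ * C) ≤ (NN W k y : ℝ) * (δ * C) + (τ * (NN W k y : ℝ)) * ((1 - δ) * C) := by
          rw [h2] at h1
          linarith
      _ = (δ + (1 - δ) * τ) * ((NN W k y : ℝ) * C) := by ring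
      _ ≤ κ * ((NN W k y : ℝ) * C) := h5
      _ = (NN W k y : ℝ) * (κ * C) := by ring
  have h7 : (𝓑.card : ℝ) ≤ (NN W k y : ℝ) := le_of_mul_le_mul_right h6 (by positivity)
  exact_mod_cast h7

theorem t_PDW : S_SPL → S_LT → S_PDW := by
  intro hSPL hLT α _ V k x a φ hk hkV hφ0 hφ1 hx ha hxa hφ
  set W := V.erase a with hW
  have hWc : W.card = V.card - 1 := card_erase_of_mem ha
  have hn : 18 ≤ V.card := by omega
  set ψ : ℝ := 1 / φ - 1 with hψ
  have hψ0 : 0 ≤ ψ := by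
    rw [hψ, sub_nonneg, le_div_iff₀ hφ0]
    linarith
  have hxW : ∑ i ∈ W, x i = -x a := by
    have := add_sum_erase V x ha
    rw [← hW] at this
    linarith
  have hx2W : ∑ i ∈ W, (x i - 0) ^ 2 ≤ ψ * x a ^ 2 := by
    have h1 := add_sum_erase V (fun i => x i ^ 2) ha
    rw [← hW] at h1
    have h2 : ∑ i ∈ W, (x i - 0) ^ 2 = ∑ i ∈ W, x i ^ 2 := by
      simp
    have h3 : ∑ i ∈ V, x i ^ 2 ≤ 1 / φ * x a ^ 2 := by
      rw [one_div, ← div_eq_inv_mul, le_div_iff₀ hφ0]
      linarith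
    rw [h2, hψ]
    have h4 : x a ^ 2 + ∑ i ∈ W, x i ^ 2 = ∑ i ∈ V, x i ^ 2 := h1
    linarith
  -- the ratio
  have hnr : (18 : ℝ) ≤ V.card := by exact_mod_cast hn
  have hkr : (2 : ℝ) ≤ k := by exact_mod_cast hk
  have hkVr : 9 * (k : ℝ) ≤ V.card := by exact_mod_cast hkV
  have hWr : (W.card : ℝ) = V.card - 1 := by
    rw [hWc, Nat.cast_sub (by omega)]
    push_cast
    ring
  have hk1r : ((k - 1 : ℕ) : ℝ) = k - 1 := by
    rw [Nat.cast_sub (by omega)]
    push_cast
    ring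
  set r : ℝ := ((k - 1 : ℕ) : ℝ) / W.card with hr
  have hWp : (0 : ℝ) < W.card := by rw [hWr]; linarith
  have hr0 : 0 < r := by
    rw [hr]
    apply div_pos _ hWp
    rw [hk1r]
    linarith
  have hr1 : r ≤ 1 / 9 := by
    rw [hr, div_le_iff₀ hWp, hk1r, hWr]
    linarith
  have hlt := hLT α W (k - 1) x 0 (ψ * x a ^ 2) (x a) (x a) (by omega) (by omega) hx2W
    (by rw [hxW]) (by
      rw [← hr]
      nlinarith)
  rw [← hr] at hlt
  -- the counts
  set bad := (((W.powersetCard (k - 1)).filter (fun B => ∑ i ∈ B, x i < -x a)).card : ℝ) with hbad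
  set good := (((W.powersetCard (k - 1)).filter (fun B => -x a ≤ ∑ i ∈ B, x i)).card : ℝ) with hgood
  set Cb : ℝ := (W.card.choose (k - 1) : ℝ) with hCb
  have hsum : good + bad = Cb := by
    have h1 := card_filter_add_card_filter_not (s := W.powersetCard (k - 1)) (fun B => -x a ≤ ∑ i ∈ B, x i)
    rw [card_powersetCard] at h1
    have h2 : (W.powersetCard (k - 1)).filter (fun B => ¬ (-x a ≤ ∑ i ∈ B, x i)) =
        (W.powersetCard (k - 1)).filter (fun B => ∑ i ∈ B, x i < -x a) := by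
      apply filter_congr
      intro B _
      exact not_le
    rw [h2] at h1
    rw [hgood, hbad, hCb]
    exact_mod_cast h1
  have hCb0 : 0 ≤ Cb := Nat.cast_nonneg _
  have hbad2 : bad * (r * ψ + (1 - r) ^ 2) ≤ r * ψ * Cb := by
    have hM : 0 < x a ^ 2 := by positivity
    have h1 : (bad * (r * ψ + (1 - r) ^ 2)) * x a ^ 2 ≤ (r * ψ * Cb) * x a ^ 2 := by
      calc (bad * (r * ψ + (1 - r) ^ 2)) * x a ^ 2
          = bad * (r * (ψ * x a ^ 2) + (x a - r * x a) ^ 2) := by ring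
        _ ≤ r * (ψ * x a ^ 2) * Cb := hlt
        _ = (r * ψ * Cb) * x a ^ 2 := by ring
    exact le_of_mul_le_mul_right h1 hM
  have hgood2 : 64 / (64 + 9 * ψ) * Cb ≤ good := by
    have h1 : (1 - r) ^ 2 * Cb ≤ good * (r * ψ + (1 - r) ^ 2) := by
      have : bad = Cb - good := by linarith
      rw [this] at hbad2
      nlinarith
    have h2 : 64 * r ≤ 9 * (1 - r) ^ 2 := by nlinarith
    have h3 : 64 * (r * ψ + (1 - r) ^ 2) ≤ (64 + 9 * ψ) * (1 - r) ^ 2 := by
      have := mul_le_mul_of_nonneg_right h2 hψ0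
      nlinarith
    have hq : 0 < r * ψ + (1 - r) ^ 2 := by
      have : 0 < (1 - r) ^ 2 := by
        have : 0 < 1 - r := by linarith
        positivity
      have h4 : 0 ≤ r * ψ := by positivity
      linarith
    rw [div_mul_eq_mul_div, div_le_iff₀ (by positivity)]
    have h5 : (64 * Cb) * (r * ψ + (1 - r) ^ 2) ≤ (good * (64 + 9 * ψ)) * (r * ψ + (1 - r) ^ 2) := by
      calc (64 * Cb) * (r * ψ + (1 - r) ^ 2) = Cb * (64 * (r * ψ + (1 - r) ^ 2)) := by ring
        _ ≤ Cb * ((64 + 9 * ψ) * (1 - r) ^ 2) := mul_le_mul_of_nonneg_left h3 hCb0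
        _ = (64 + 9 * ψ) * ((1 - r) ^ 2 * Cb) := by ring
        _ ≤ (64 + 9 * ψ) * (good * (r * ψ + (1 - r) ^ 2)) := mul_le_mul_of_nonneg_left h1 (by positivity)
        _ = (good * (64 + 9 * ψ)) * (r * ψ + (1 - r) ^ 2) := by ring
    exact le_of_mul_le_mul_right h5 hq
  have hNNg : good ≤ (NN V k x : ℝ) := by
    have h1 := hSPL α V k x a (by omega) ha
    rw [hgood]
    have h2 : ((W.powersetCard (k - 1)).filter (fun B => -x a ≤ ∑ i ∈ B, x i)).card ≤ NN V k x := by
      rw [h1]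
      exact Nat.le_add_right _ _
    exact_mod_cast h2
  have hchoose : (V.card : ℝ) * Cb = k * (V.card.choose k : ℝ) := by
    obtain ⟨n', hn'⟩ : ∃ n', V.card = n' + 1 := ⟨V.card - 1, by omega⟩
    obtain ⟨k', hk'⟩ : ∃ k', k = k' + 1 := ⟨k - 1, by omega⟩
    have h1 := Nat.add_one_mul_choose_eq n' k'
    rw [hCb, hWc, hn', hk']
    simp only [Nat.add_sub_cancel]
    have h2 : ((n' + 1 : ℕ) : ℝ) * (n'.choose k' : ℝ) = ((n' + 1).choose (k' + 1) : ℝ) * ((k' + 1 : ℕ) : ℝ) := by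
      exact_mod_cast h1
    rw [h2]
    ring
  calc 64 / (64 + 9 * ψ) * (k : ℝ) * (V.card.choose k : ℝ)
      = 64 / (64 + 9 * ψ) * (k * (V.card.choose k : ℝ)) := by ring
    _ = (V.card : ℝ) * (64 / (64 + 9 * ψ) * Cb) := by rw [← hchoose]; ring
    _ ≤ (V.card : ℝ) * good := mul_le_mul_of_nonneg_left hgood2 (by positivity)
    _ ≤ (V.card : ℝ) * (NN V k x : ℝ) := mul_le_mul_of_nonneg_left hNNg (by positivity)

end Pool.Agent.Q96.MS
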